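import Mathlib
import Pool.Agent.H223R3.Kalai.Main

set_option autoImplicit false

/-!
# The Turan density of expansions of shadows of tight trees

For every `r ≥ 2` and every `r`-uniform tight tree `H` with `k` edges, and `T = ∂ H`,
`ex_r(n, T⁺) / C(n, r - 1)` tends to `k`.
-/

namespace Pool.Agent.Results.MP_182bbb_co.TightTreeShadowLimit

open Finset Filter Topology

/-- `H` is an `r`-uniform tight tree: its edges can be listed as `e 0, …, e (k-1)` (`k ≥ 1`) so
that each later edge `e i` has a vertex `v` in no earlier edge and the rest of `e i` lies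
in one earlier edge `e j`. -/
def IsTightTree {V : Type} [DecidableEq V] (r : ℕ) (H : Finset (Finset V)) : Prop :=
  ∃ (k : ℕ) (e : ℕ → Finset V), 1 ≤ k ∧ H = (range k).image e ∧
    (∀ i, i < k → (e i).card = r) ∧
    ∀ i, 0 < i → i < k → ∃ v ∈ e i, (∀ j, j < i → v ∉ e j) ∧ ∃ j, j < i ∧ e i \ {v} ⊆ e j

/-- The shadow `∂ H` of an `r`-graph `H`: the `(r-1)`-element sets contained in an edge. -/
def shadow {V : Type} [DecidableEq V] (r : ℕ) (H : Finset (Finset V)) : Finset (Finset V) :=
  H.biUnion fun h => h.powersetCard (r - 1)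

/-- The expansion `T⁺` of an `(r-1)`-graph `T` to an `r`-graph: every edge `g` of `T` is enlarged
by its own new vertex `Sum.inr g`. -/
def expansion {V : Type} [DecidableEq V] (T : Finset (Finset V)) :
    Finset (Finset (V ⊕ Finset V)) :=
  T.image fun g => insert (Sum.inr g) (g.map Function.Embedding.inl)

/-- The hypergraph `G` contains a copy of `F`: a map that is injective on the vertices of `F`
and takes every edge of `F` to an edge of `G`. -/
def Contains {U W : Type} [DecidableEq U] [DecidableEq W] (G : Finset (Finset U))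
    (F : Finset (Finset W)) : Prop :=
  ∃ φ : W → U, Set.InjOn φ {x | ∃ f ∈ F, x ∈ f} ∧ ∀ f ∈ F, f.image φ ∈ G

/-- `ex r n F`: the largest number of edges of an `r`-graph on `n` vertices with no copy of `F`. -/
noncomputable def ex {W : Type} [DecidableEq W] (r n : ℕ) (F : Finset (Finset W)) : ℕ :=
  sSup {m | ∃ G : Finset (Finset (Fin n)), (∀ g ∈ G, g.card = r) ∧ ¬ Contains G F ∧ G.card = m}

section general

variable {W : Type} [DecidableEq W]

theorem bddAbove_ex (r n : ℕ) (F : Finset (Finset W)) :
    BddAbove {m | ∃ G : Finset (Finset (Fin n)),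
      (∀ g ∈ G, g.card = r) ∧ ¬ Contains G F ∧ G.card = m} := by
  refine ⟨Fintype.card (Finset (Fin n)), ?_⟩
  rintro m ⟨G, _, _, rfl⟩
  exact Finset.card_le_univ G

theorem le_ex {r n : ℕ} {F : Finset (Finset W)} (G : Finset (Finset (Fin n)))
    (h1 : ∀ g ∈ G, g.card = r) (h2 : ¬ Contains G F) : G.card ≤ ex r n F :=
  le_csSup (bddAbove_ex r n F) ⟨G, h1, h2, rfl⟩

theorem ex_le {r n m : ℕ} {F : Finset (Finset W)}
    (h : ∀ G : Finset (Finset (Fin n)), (∀ g ∈ G, g.card = r) → ¬ Contains G F → G.card ≤ m) :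
    ex r n F ≤ m := by
  rcases Set.eq_empty_or_nonempty {m | ∃ G : Finset (Finset (Fin n)),
      (∀ g ∈ G, g.card = r) ∧ ¬ Contains G F ∧ G.card = m} with he | hne
  · unfold ex
    rw [he]
    simp
  · refine csSup_le hne ?_
    rintro x ⟨G, h1, h2, rfl⟩
    exact h G h1 h2

end general

section tree

variable {V : Type} [DecidableEq V] {r k : ℕ} {e : ℕ → Finset V}

/-- the shadow of the first `m` edges -/
def Sh (r : ℕ) (e : ℕ → Finset V) (m : ℕ) : Finset (Finset V) :=
  (range m).biUnion fun i => (e i).powersetCard (r - 1)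

theorem mem_Sh {m : ℕ} {g : Finset V} :
    g ∈ Sh r e m ↔ ∃ i, i < m ∧ g ⊆ e i ∧ g.card = r - 1 := by
  simp [Sh, Finset.mem_powersetCard]

theorem shadow_eq : shadow r ((range k).image e) = Sh r e k := by
  ext g
  simp [shadow, Sh]

theorem card_Sh (hr : 1 ≤ r) (hcard : ∀ i, i < k → (e i).card = r)
    (hstep : ∀ i, 0 < i → i < k → ∃ v ∈ e i, (∀ j, j < i → v ∉ e j) ∧
      ∃ j, j < i ∧ e i \ {v} ⊆ e j) :
    ∀ m, m ≤ k → (Sh r e m).card ≤ (r - 1) * m + 1 := by
  intro m
  induction m with
  | zero => intro _; simp [Sh]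
  | succ m ih =>
    intro hm
    have hmk : m < k := hm
    have ih' := ih hmk.le
    rcases Nat.eq_zero_or_pos m with h0 | hpos
    · subst h0
      have : Sh r e 1 = (e 0).powersetCard (r - 1) := by simp [Sh]
      rw [this, Finset.card_powersetCard, hcard 0 hmk]
      have h1 : r.choose (r - 1) = r := by
        obtain ⟨s, rfl⟩ : ∃ s, r = s + 1 := ⟨r - 1, by omega⟩
        simp
      rw [h1]
      omega
    · obtain ⟨v, hv, hnew, j, hj, hsub⟩ := hstep m hpos hmk
      have hS : (e m \ {v}).card = r - 1 := by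
        rw [Finset.card_sdiff_of_subset (Finset.singleton_subset_iff.2 hv), hcard m hmk,
          Finset.card_singleton]
      have hcover : Sh r e (m + 1) ⊆ Sh r e m ∪ (e m \ {v}).image (fun x => (e m).erase x) := by
        intro g hg
        rw [mem_Sh] at hg
        obtain ⟨i, hi, hgi, hgc⟩ := hg
        rw [Finset.mem_union]
        rcases Nat.lt_or_ge i m with him | him
        · left
          exact mem_Sh.2 ⟨i, him, hgi, hgc⟩
        · have him' : i = m := by omega
          subst him'
          by_cases hvg : v ∈ g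
          · right
            have hc : (e i \ g).card = 1 := by
              rw [Finset.card_sdiff_of_subset hgi, hcard i hmk, hgc]
              omega
            obtain ⟨x, hx⟩ := Finset.card_eq_one.1 hc
            have hxm : x ∈ e i \ g := by rw [hx]; exact Finset.mem_singleton_self x
            rw [Finset.mem_sdiff] at hxm
            rw [Finset.mem_image]
            refine ⟨x, ?_, ?_⟩
            · rw [Finset.mem_sdiff, Finset.mem_singleton]
              refine ⟨hxm.1, ?_⟩
              rintro rfl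
              exact hxm.2 hvg
            · rw [← Finset.sdiff_singleton_eq_erase, ← hx]
              exact Finset.sdiff_sdiff_eq_self hgi
          · left
            refine mem_Sh.2 ⟨j, hj, ?_, hgc⟩
            intro y hy
            apply hsub
            rw [Finset.mem_sdiff, Finset.mem_singleton]
            refine ⟨hgi hy, ?_⟩
            rintro rfl
            exact hvg hy
      have h2 := Finset.card_le_card hcover
      have h3 := Finset.card_union_le (Sh r e m) ((e m \ {v}).image (fun x => (e m).erase x))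
      have h4 : ((e m \ {v}).image (fun x => (e m).erase x)).card ≤ r - 1 := by
        rw [← hS]; exact Finset.card_image_le
      have h5 : (r - 1) * (m + 1) = (r - 1) * m + (r - 1) := by ring
      omega

/-- the upper bound from Kalai's theorem -/
theorem upper (hr : 2 ≤ r) (hk : 1 ≤ k) (hcard : ∀ i, i < k → (e i).card = r)
    (hstep : ∀ i, 0 < i → i < k → ∃ v ∈ e i, (∀ j, j < i → v ∉ e j) ∧
      ∃ j, j < i ∧ e i \ {v} ⊆ e j)
    (n : ℕ) (G : Finset (Finset (Fin n))) (hG : ∀ g ∈ G, g.card = r)
    (hno : ¬ Contains G (expansion (Sh r e k))) : G.card ≤ k * n.choose (r - 1) := by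
  rcases Nat.eq_zero_or_pos n with rfl | hn
  · have hGe : G = ∅ := by
      rw [Finset.eq_empty_iff_forall_notMem]
      intro g hg
      have h1 := hG g hg
      have h2 : g.card ≤ Fintype.card (Fin 0) := Finset.card_le_univ g
      rw [Fintype.card_fin] at h2
      omega
    rw [hGe]
    simp
  have : Nonempty (Fin n) := ⟨⟨0, hn⟩⟩
  obtain ⟨d, rfl⟩ : ∃ d, r = d + 1 := ⟨r - 1, by omega⟩
  have hcT := card_Sh (r := d + 1) (k := k) (e := e) (by omega) hcard hstep k le_rfl
  simp only [Nat.add_sub_cancel] at hcT ⊢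
  set T := Sh (d + 1) e k with hT
  -- an enumeration of the shadow
  obtain ⟨q, hq⟩ : ∃ q, T.card = q := ⟨_, rfl⟩
  have hTne : T.Nonempty := by
    have h0 : (e 0).card = d + 1 := hcard 0 (by omega)
    obtain ⟨g, hg, hgc⟩ := Finset.exists_subset_card_eq (s := e 0) (n := d) (by omega)
    exact ⟨g, mem_Sh.2 ⟨0, by omega, hg, by simpa using hgc⟩⟩
  obtain ⟨en, hen⟩ : ∃ en : ℕ → Finset V, T = (range q).image en := by
    refine ⟨fun i => if h : i < q then (T.equivFin.symm ⟨i, by rw [hq]; exact h⟩).1 else ∅, ?_⟩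
    ext g
    rw [Finset.mem_image]
    constructor
    · intro hg
      have hlt : (T.equivFin ⟨g, hg⟩).1 < q := by
        rw [← hq]; exact (T.equivFin ⟨g, hg⟩).2
      refine ⟨(T.equivFin ⟨g, hg⟩).1, Finset.mem_range.2 hlt, ?_⟩
      simp [hlt]
    · rintro ⟨i, hi, rfl⟩
      rw [Finset.mem_range] at hi
      simp only [hi, dif_pos]
      exact (T.equivFin.symm ⟨i, by rw [hq]; exact hi⟩).2
  -- the tight tree `K`
  let E : ℕ → Finset (V ⊕ Finset V) := fun i =>
    if i < k then (e i).map Function.Embedding.inl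
    else insert (Sum.inr (en (i - k))) ((en (i - k)).map Function.Embedding.inl)
  have hE1 : ∀ i, i < k → E i = (e i).map Function.Embedding.inl := fun i hi => by
    simp [E, hi]
  have hE2 : ∀ i, k ≤ i → E i =
      insert (Sum.inr (en (i - k))) ((en (i - k)).map Function.Embedding.inl) := fun i hi => by
    simp [E, Nat.not_lt.2 hi]
  have henT : ∀ i, i < q → en i ∈ T := fun i hi => by
    rw [hen]; exact Finset.mem_image_of_mem _ (Finset.mem_range.2 hi)
  -- only inject distinct enumeration
  have heninj : ∀ i, i < q → ∀ j, j < q → en i = en j → i = j := by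
    have h1 : ((range q).image en).card = (range q).card := by
      rw [← hen, hq, Finset.card_range]
    have h2 := Finset.injOn_of_card_image_eq h1
    intro i hi j hj hij
    exact h2 (by simpa using hi) (by simpa using hj) hij
  have hk' := H223R3.Kalai.kalai (d := d) (V := Fin n) E (k + q) (by omega)
    (by rw [hE1 0 (by omega), Finset.card_map]; exact hcard 0 (by omega)) ?_ G hG ?_
  · rw [Fintype.card_fin] at hk'
    have h6 : (k + q) * n.choose d ≤ ((d + 1) * k + 1) * n.choose d := by
      apply Nat.mul_le_mul_right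
      have : (d + 1) * k = d * k + k := by ring
      omega
    have h7 : G.card * (d + 1) ≤ (k * n.choose d) * (d + 1) := by
      have h8 : ((d + 1) * k + 1) * n.choose d = (k * n.choose d) * (d + 1) + n.choose d := by
        ring
      omega
    exact Nat.le_of_mul_le_mul_right h7 (by omega)
  · intro i hi hik
    rcases Nat.lt_or_ge i k with h | h
    · obtain ⟨v, hv, hnew, j, hj, hsub⟩ := hstep i hi h
      refine ⟨j, hj, (e i \ {v}).map Function.Embedding.inl, ?_, ?_, Sum.inl v, ?_, ?_⟩
      · rw [hE1 j (by omega)]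
        exact Finset.map_subset_map.2 hsub
      · rw [Finset.card_map, Finset.card_sdiff_of_subset (Finset.singleton_subset_iff.2 hv),
          hcard i h, Finset.card_singleton]
        omega
      · rw [Finset.mem_biUnion]
        rintro ⟨l, hl, hvl⟩
        rw [Finset.mem_range] at hl
        rw [hE1 l (by omega)] at hvl
        simp only [Finset.mem_map, Function.Embedding.inl_apply, Sum.inl.injEq,
          exists_eq_right] at hvl
        exact hnew l hl hvl
      · rw [hE1 i h]
        ext x
        simp only [Finset.mem_map, Finset.mem_insert, Finset.mem_sdiff, Finset.mem_singleton,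
          Function.Embedding.inl_apply]
        constructor
        · rintro ⟨a, ha, rfl⟩
          by_cases hav : a = v
          · left; rw [hav]
          · right; exact ⟨a, ⟨ha, hav⟩, rfl⟩
        · rintro (rfl | ⟨a, ⟨ha, _⟩, rfl⟩)
          · exact ⟨v, hv, rfl⟩
          · exact ⟨a, ha, rfl⟩
    · have hiq : i - k < q := by omega
      have hgT := henT _ hiq
      rw [hT, mem_Sh] at hgT
      obtain ⟨j, hj, hgj, hgc⟩ := hgT
      refine ⟨j, by omega, (en (i - k)).map Function.Embedding.inl, ?_, ?_,
        Sum.inr (en (i - k)), ?_, hE2 i h⟩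
      · rw [hE1 j hj]
        exact Finset.map_subset_map.2 hgj
      · rw [Finset.card_map]
        simpa using hgc
      · rw [Finset.mem_biUnion]
        rintro ⟨l, hl, hvl⟩
        rw [Finset.mem_range] at hl
        rcases Nat.lt_or_ge l k with h' | h'
        · rw [hE1 l h'] at hvl
          simp at hvl
        · rw [hE2 l h'] at hvl
          simp only [Finset.mem_insert, Sum.inr.injEq, Finset.mem_map,
            Function.Embedding.inl_apply, reduceCtorEq, and_false, exists_false, or_false] at hvl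
          have := heninj _ hiq _ (by omega) hvl
          omega
  · rintro ⟨f, f1, f2⟩
    apply hno
    refine ⟨f, ?_, ?_⟩
    · intro x hx y hy hxy
      have key : ∀ z : V ⊕ Finset V, (∃ f ∈ expansion T, z ∈ f) →
          z ∈ (((range (k + q)).biUnion E : Finset (V ⊕ Finset V)) : Set (V ⊕ Finset V)) := by
        rintro z ⟨F, hF, hz⟩
        rw [expansion, Finset.mem_image] at hF
        obtain ⟨g, hg, rfl⟩ := hF
        rw [hen, Finset.mem_image] at hg
        obtain ⟨i, hi, rfl⟩ := hg
        rw [Finset.mem_range] at hi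
        rw [Finset.mem_coe, Finset.mem_biUnion]
        refine ⟨k + i, Finset.mem_range.2 (by omega), ?_⟩
        rw [hE2 (k + i) (by omega)]
        simpa using hz
      exact f1 (key x hx) (key y hy) hxy
    · intro F hF
      rw [expansion, Finset.mem_image] at hF
      obtain ⟨g, hg, rfl⟩ := hF
      rw [hen, Finset.mem_image] at hg
      obtain ⟨i, hi, rfl⟩ := hg
      rw [Finset.mem_range] at hi
      have := f2 (k + i) (by omega)
      rw [hE2 (k + i) (by omega)] at this
      simpa using this

/-- the construction: all `r`-sets with exactly one vertex in `S` -/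
def cons (r n : ℕ) (S : Finset (Fin n)) : Finset (Finset (Fin n)) :=
  (univ.powersetCard r).filter fun g => (g ∩ S).card = 1

theorem card_cons (hr : 1 ≤ r) (n : ℕ) (S : Finset (Fin n)) :
    S.card * (n - S.card).choose (r - 1) ≤ (cons r n S).card := by
  have h1 : (S ×ˢ (Sᶜ).powersetCard (r - 1)).card = S.card * (n - S.card).choose (r - 1) := by
    rw [Finset.card_product, Finset.card_powersetCard, Finset.card_compl, Fintype.card_fin]
  rw [← h1]
  apply Finset.card_le_card_of_injOn (fun p => insert p.1 p.2)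
  · rintro ⟨s, A⟩ hp
    simp only [Finset.coe_product, Set.mem_prod, Finset.mem_coe, Finset.mem_powersetCard] at hp
    obtain ⟨hs, hA, hAc⟩ := hp
    have hsA : s ∉ A := fun h => (Finset.mem_compl.1 (hA h)) hs
    have hAS : A ∩ S = ∅ := by
      rw [← Finset.disjoint_iff_inter_eq_empty, Finset.disjoint_left]
      intro a ha
      exact Finset.mem_compl.1 (hA ha)
    simp only [cons, Finset.coe_filter, Set.mem_setOf_eq, Finset.mem_powersetCard,
      Finset.subset_univ, true_and]
    refine ⟨?_, ?_⟩
    · rw [Finset.card_insert_of_notMem hsA, hAc]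
      omega
    · rw [Finset.insert_inter_of_mem hs, hAS]
      simp
  · rintro ⟨s, A⟩ hp ⟨s', A'⟩ hp' heq
    simp only [Finset.coe_product, Set.mem_prod, Finset.mem_coe, Finset.mem_powersetCard]
      at hp hp'
    obtain ⟨hs, hA, _⟩ := hp
    obtain ⟨hs', hA', _⟩ := hp'
    simp only at heq
    have hss : s = s' := by
      have : s ∈ insert s' A' := by rw [← heq]; exact Finset.mem_insert_self _ _
      rcases Finset.mem_insert.1 this with h | h
      · exact h
      · exact absurd hs (Finset.mem_compl.1 (hA' h))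
    subst hss
    have h2 : s ∉ A := fun h => (Finset.mem_compl.1 (hA h)) hs
    have h3 : s ∉ A' := fun h => (Finset.mem_compl.1 (hA' h)) hs
    have : A = A' := by
      rw [← Finset.erase_insert h2, heq, Finset.erase_insert h3]
    rw [this]

/-- the part of the crosscut found in the first `m` edges -/
noncomputable def Cut (r : ℕ) (e : ℕ → Finset V) (P : V ⊕ Finset V → Prop) (m : ℕ) :
    Finset (V ⊕ Finset V) := by
  classical
  exact ((((range m).biUnion e).map Function.Embedding.inl) ∪
    ((Sh r e m).map Function.Embedding.inr)).filter P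

theorem mem_Cut_inl (P : V ⊕ Finset V → Prop) (m : ℕ) (v : V) :
    Sum.inl v ∈ Cut r e P m ↔ (∃ i, i < m ∧ v ∈ e i) ∧ P (Sum.inl v) := by
  classical
  simp [Cut]

theorem mem_Cut_inr (P : V ⊕ Finset V → Prop) (m : ℕ) (g : Finset V) :
    Sum.inr g ∈ Cut r e P m ↔ g ∈ Sh r e m ∧ P (Sum.inr g) := by
  classical
  simp [Cut]

theorem Cut_mono (P : V ⊕ Finset V → Prop) (m : ℕ) : Cut r e P m ⊆ Cut r e P (m + 1) := by
  intro x hx
  rcases x with v | g
  · rw [mem_Cut_inl] at hx ⊢
    obtain ⟨⟨i, hi, hv⟩, hP⟩ := hx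
    exact ⟨⟨i, by omega, hv⟩, hP⟩
  · rw [mem_Cut_inr] at hx ⊢
    refine ⟨?_, hx.2⟩
    obtain ⟨i, hi, h⟩ := mem_Sh.1 hx.1
    exact mem_Sh.2 ⟨i, by omega, h⟩

/-- Every crosscut of the expansion of the shadow has more than `k` elements. -/
theorem card_Cut (hr : 2 ≤ r) (hcard : ∀ i, i < k → (e i).card = r)
    (hstep : ∀ i, 0 < i → i < k → ∃ v ∈ e i, (∀ j, j < i → v ∉ e j) ∧
      ∃ j, j < i ∧ e i \ {v} ⊆ e j)
    (P : V ⊕ Finset V → Prop)
    (hP1 : ∀ g ∈ Sh r e k, P (Sum.inr g) ∨ ∃ v ∈ g, P (Sum.inl v))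
    (hP2 : ∀ g ∈ Sh r e k, ∀ v ∈ g, ∀ w ∈ g, P (Sum.inl v) → P (Sum.inl w) → v = w) :
    ∀ m, 1 ≤ m → m ≤ k → m + 1 ≤ (Cut r e P m).card := by
  intro m
  induction m with
  | zero => intro h; omega
  | succ m ih =>
    intro _ hm
    have hmk : m < k := hm
    rcases Nat.eq_zero_or_pos m with h0 | hpos
    · subst h0
      simp only [Nat.zero_add]
      have h0c := hcard 0 hmk
      have herase : ∀ v ∈ e 0, (e 0).erase v ∈ Sh r e 1 := by
        intro v hv
        refine mem_Sh.2 ⟨0, by omega, Finset.erase_subset _ _, ?_⟩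
        rw [Finset.card_erase_of_mem hv, h0c]
      have hmono : Sh r e 1 ⊆ Sh r e k := by
        intro g hg
        obtain ⟨i, hi, h⟩ := mem_Sh.1 hg
        exact mem_Sh.2 ⟨i, by omega, h⟩
      by_cases hex : ∃ v ∈ e 0, P (Sum.inl v)
      · obtain ⟨v, hv, hPv⟩ := hex
        have h1 : Sum.inl v ∈ Cut r e P 1 := (mem_Cut_inl P 1 v).2 ⟨⟨0, by omega, hv⟩, hPv⟩
        have h2 : ∃ x ∈ Cut r e P 1, x ≠ Sum.inl v := by
          rcases hP1 _ (hmono (herase v hv)) with h | ⟨w, hw, hPw⟩
          · exact ⟨Sum.inr _, (mem_Cut_inr P 1 _).2 ⟨herase v hv, h⟩, by simp⟩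
          · refine ⟨Sum.inl w, (mem_Cut_inl P 1 w).2
              ⟨⟨0, by omega, Finset.mem_of_mem_erase hw⟩, hPw⟩, ?_⟩
            intro h
            rw [Sum.inl.injEq] at h
            rw [h] at hw
            exact Finset.notMem_erase v _ hw
        obtain ⟨x, hx, hxv⟩ := h2
        have : 1 < (Cut r e P 1).card := Finset.one_lt_card.2 ⟨x, hx, _, h1, hxv⟩
        omega
      · push Not at hex
        have h2 : 1 < (e 0).card := by omega
        obtain ⟨a, ha, b, hb, hab⟩ := Finset.one_lt_card.1 h2
        have hin : ∀ v ∈ e 0, Sum.inr ((e 0).erase v) ∈ Cut r e P 1 := by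
          intro v hv
          rw [mem_Cut_inr]
          refine ⟨herase v hv, ?_⟩
          rcases hP1 _ (hmono (herase v hv)) with h | ⟨w, hw, hPw⟩
          · exact h
          · exact absurd hPw (hex w (Finset.mem_of_mem_erase hw))
        have : 1 < (Cut r e P 1).card := by
          refine Finset.one_lt_card.2 ⟨_, hin a ha, _, hin b hb, ?_⟩
          intro h
          rw [Sum.inr.injEq] at h
          have h3 : b ∈ (e 0).erase a := Finset.mem_erase.2 ⟨hab.symm, hb⟩
          rw [h] at h3
          exact Finset.notMem_erase b _ h3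
        omega
    · have ih' := ih hpos hmk.le
      obtain ⟨v, hv, hnew, j, hj, hsub⟩ := hstep m hpos hmk
      suffices h : ∃ x, x ∈ Cut r e P (m + 1) ∧ x ∉ Cut r e P m by
        obtain ⟨x, hx, hx'⟩ := h
        have h1 : (Cut r e P m).card < (Cut r e P (m + 1)).card := by
          apply Finset.card_lt_card
          rw [Finset.ssubset_iff_of_subset (Cut_mono P m)]
          exact ⟨x, hx, hx'⟩
        omega
      by_cases hPv : P (Sum.inl v)
      · refine ⟨Sum.inl v, (mem_Cut_inl P _ v).2 ⟨⟨m, by omega, hv⟩, hPv⟩, ?_⟩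
        rw [mem_Cut_inl]
        rintro ⟨⟨i, hi, hvi⟩, _⟩
        exact hnew i hi hvi
      · have hScard : (e m \ {v}).card = r - 1 := by
          rw [Finset.card_sdiff_of_subset (Finset.singleton_subset_iff.2 hv), hcard m hmk,
            Finset.card_singleton]
        have hSSh : e m \ {v} ∈ Sh r e k := mem_Sh.2 ⟨j, by omega, hsub, hScard⟩
        have hs : ∃ s ∈ e m \ {v}, ∀ u ∈ e m \ {v}, u ≠ s → ¬ P (Sum.inl u) := by
          by_cases hex : ∃ s ∈ e m \ {v}, P (Sum.inl s)
          · obtain ⟨s, hs, hPs⟩ := hex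
            refine ⟨s, hs, ?_⟩
            intro u hu hus hPu
            exact hus (hP2 _ hSSh u hu s hs hPu hPs)
          · push Not at hex
            obtain ⟨s, hs⟩ : (e m \ {v}).Nonempty := by
              rw [← Finset.card_pos, hScard]; omega
            exact ⟨s, hs, fun u hu _ => hex u hu⟩
        obtain ⟨s, hs, hs'⟩ := hs
        rw [Finset.mem_sdiff, Finset.mem_singleton] at hs
        have hg : (e m).erase s ∈ Sh r e (m + 1) := by
          refine mem_Sh.2 ⟨m, by omega, Finset.erase_subset _ _, ?_⟩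
          rw [Finset.card_erase_of_mem hs.1, hcard m hmk]
        have hgk : (e m).erase s ∈ Sh r e k := by
          obtain ⟨i, hi, h⟩ := mem_Sh.1 hg
          exact mem_Sh.2 ⟨i, by omega, h⟩
        have hvg : v ∈ (e m).erase s := Finset.mem_erase.2 ⟨fun h => hs.2 h.symm, hv⟩
        refine ⟨Sum.inr ((e m).erase s), (mem_Cut_inr P _ _).2 ⟨hg, ?_⟩, ?_⟩
        · rcases hP1 _ hgk with h | ⟨w, hw, hPw⟩
          · exact h
          · exfalso
            rw [Finset.mem_erase] at hw
            by_cases hwv : w = v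
            · rw [hwv] at hPw
              exact hPv hPw
            · exact hs' w (Finset.mem_sdiff.2 ⟨hw.2, by simpa using hwv⟩) hw.1 hPw
        · rw [mem_Cut_inr]
          rintro ⟨h, _⟩
          obtain ⟨i, hi, hsub', _⟩ := mem_Sh.1 h
          exact hnew i hi (hsub' hvg)

theorem cons_free (hr : 2 ≤ r) (hk : 1 ≤ k) (hcard : ∀ i, i < k → (e i).card = r)
    (hstep : ∀ i, 0 < i → i < k → ∃ v ∈ e i, (∀ j, j < i → v ∉ e j) ∧
      ∃ j, j < i ∧ e i \ {v} ⊆ e j)
    (n : ℕ) (S : Finset (Fin n)) (hS : S.card ≤ k) :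
    ¬ Contains (cons r n S) (expansion (Sh r e k)) := by
  classical
  rintro ⟨φ, f1, f2⟩
  -- every edge of the expansion has exactly one vertex sent to `S`
  have hedge : ∀ g ∈ Sh r e k, ((insert (Sum.inr g)
      (g.map Function.Embedding.inl) : Finset (V ⊕ Finset V)).image φ ∩ S).card = 1 := by
    intro g hg
    have := f2 _ (Finset.mem_image_of_mem _ hg)
    rw [cons, Finset.mem_filter] at this
    exact this.2
  have hvert : ∀ g ∈ Sh r e k, ∀ x ∈ (insert (Sum.inr g)
      (g.map Function.Embedding.inl) : Finset (V ⊕ Finset V)),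
      x ∈ {x : V ⊕ Finset V | ∃ f ∈ expansion (Sh r e k), x ∈ f} := by
    intro g hg x hx
    exact ⟨_, Finset.mem_image_of_mem _ hg, hx⟩
  have hc := card_Cut (r := r) (k := k) (e := e) hr hcard hstep (fun x => φ x ∈ S) ?_ ?_ k hk
    le_rfl
  · have h1 : (Cut r e (fun x => φ x ∈ S) k).card ≤ S.card := by
      apply Finset.card_le_card_of_injOn φ
      · intro x hx
        rw [Finset.mem_coe] at hx
        rcases x with v | g
        · exact ((mem_Cut_inl _ _ _).1 hx).2
        · exact ((mem_Cut_inr _ _ _).1 hx).2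
      · apply f1.mono
        intro x hx
        rw [Finset.mem_coe] at hx
        rcases x with v | g
        · obtain ⟨⟨i, hi, hv⟩, _⟩ := (mem_Cut_inl _ _ _).1 hx
          obtain ⟨g, hg1, hg2, hg3⟩ := Finset.exists_subsuperset_card_eq (n := r - 1)
            (Finset.singleton_subset_iff.2 hv) (by rw [Finset.card_singleton]; omega)
            (by rw [hcard i hi]; omega)
          refine hvert g (mem_Sh.2 ⟨i, hi, hg2, hg3⟩) _ ?_
          rw [Finset.mem_insert]
          right
          simpa using hg1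
        · refine hvert g ((mem_Cut_inr _ _ _).1 hx).1 _ (Finset.mem_insert_self _ _)
    omega
  · intro g hg
    obtain ⟨y, hy⟩ := Finset.card_eq_one.1 (hedge g hg)
    have hy' : y ∈ (insert (Sum.inr g)
      (g.map Function.Embedding.inl) : Finset (V ⊕ Finset V)).image φ ∩ S := by
      rw [hy]; exact Finset.mem_singleton_self y
    rw [Finset.mem_inter, Finset.mem_image] at hy'
    obtain ⟨⟨x, hx, rfl⟩, hxS⟩ := hy'
    rw [Finset.mem_insert, Finset.mem_map] at hx
    rcases hx with rfl | ⟨v, hv, rfl⟩
    · left; exact hxS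
    · right; exact ⟨v, hv, hxS⟩
  · intro g hg v hv w hw hPv hPw
    obtain ⟨y, hy⟩ := Finset.card_eq_one.1 (hedge g hg)
    have hmem : ∀ u ∈ g, φ (Sum.inl u) ∈ S → φ (Sum.inl u) = y := by
      intro u hu hPu
      rw [← Finset.mem_singleton, ← hy, Finset.mem_inter]
      refine ⟨Finset.mem_image_of_mem _ (Finset.mem_insert_of_mem ?_), hPu⟩
      simpa using hu
    have h1 : φ (Sum.inl v) = φ (Sum.inl w) := by rw [hmem v hv hPv, hmem w hw hPw]
    have h2 := f1 (hvert g hg (Sum.inl v) (Finset.mem_insert_of_mem (by simpa using hv)))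
      (hvert g hg (Sum.inl w) (Finset.mem_insert_of_mem (by simpa using hw))) h1
    exact Sum.inl_injective h2

theorem lower (hr : 2 ≤ r) (hk : 1 ≤ k) (hcard : ∀ i, i < k → (e i).card = r)
    (hstep : ∀ i, 0 < i → i < k → ∃ v ∈ e i, (∀ j, j < i → v ∉ e j) ∧
      ∃ j, j < i ∧ e i \ {v} ⊆ e j) (n : ℕ) :
    k * (n - k).choose (r - 1) ≤ ex r n (expansion (Sh r e k)) := by
  rcases Nat.lt_or_ge n k with h | h
  · have h0 : n - k = 0 := by omega
    rw [h0, Nat.choose_eq_zero_of_lt (by omega)]
    simp
  · obtain ⟨S, _, hS⟩ := Finset.exists_subset_card_eq (s := (univ : Finset (Fin n))) (n := k)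
      (by rw [Finset.card_univ, Fintype.card_fin]; exact h)
    have h1 := card_cons (r := r) (by omega) n S
    rw [hS] at h1
    refine h1.trans (le_ex _ ?_ (cons_free hr hk hcard hstep n S hS.le))
    intro g hg
    rw [cons, Finset.mem_filter, Finset.mem_powersetCard] at hg
    exact hg.1.2

theorem card_image_tree
    (hstep : ∀ i, 0 < i → i < k → ∃ v ∈ e i, (∀ j, j < i → v ∉ e j) ∧
      ∃ j, j < i ∧ e i \ {v} ⊆ e j) : ((range k).image e).card = k := by
  rw [Finset.card_image_of_injOn, Finset.card_range]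
  have key : ∀ i j, i < j → j < k → e i ≠ e j := by
    intro i j hij hj heq
    obtain ⟨v, hv, hnew, _⟩ := hstep j (by omega) hj
    exact hnew i hij (by rw [heq]; exact hv)
  intro i hi j hj hij
  simp only [Finset.coe_range, Set.mem_Iio] at hi hj
  rcases Nat.lt_trichotomy i j with h | h | h
  · exact absurd hij (key i j h hj)
  · exact h
  · exact absurd hij.symm (key j i h hi)

end tree

theorem ratio_tendsto (k d : ℕ) :
    Tendsto (fun n : ℕ => (((n - k).choose d : ℕ) : ℝ) / ((n.choose d : ℕ) : ℝ)) atTop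
      (𝓝 1) := by
  have h1 := isEquivalent_choose d
  have hsub : Tendsto (fun n : ℕ => n - k) atTop atTop := tendsto_sub_atTop_nat k
  have h2 := h1.comp_tendsto hsub
  have h3 : Tendsto (fun n : ℕ => (((n - k : ℕ) : ℝ) / (n : ℝ))) atTop (𝓝 1) := by
    have h4 : Tendsto (fun n : ℕ => 1 - (k : ℝ) / (n : ℝ)) atTop (𝓝 (1 - 0)) :=
      tendsto_const_nhds.sub (tendsto_const_div_atTop_nhds_zero_nat (k : ℝ))
    rw [sub_zero] at h4
    refine h4.congr' ?_
    filter_upwards [eventually_ge_atTop (k + 1)] with n hn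
    have hn0 : (n : ℝ) ≠ 0 := by
      have : 0 < n := by omega
      positivity
    rw [Nat.cast_sub (by omega), sub_div, div_self hn0]
  have h5 : Tendsto (fun n : ℕ => (((n - k : ℕ) : ℝ) / (n : ℝ)) ^ d) atTop (𝓝 1) := by
    simpa using h3.pow d
  have h6 : (fun n : ℕ => (((n - k).choose d : ℕ) : ℝ) / ((n.choose d : ℕ) : ℝ)) =
      (fun n : ℕ => (((n - k).choose d : ℕ) : ℝ)) / (fun n : ℕ => ((n.choose d : ℕ) : ℝ)) := rfl
  rw [h6]
  have h7 := h2.div h1
  refine (h7.symm.tendsto_nhds ?_)
  refine h5.congr' ?_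
  filter_upwards [eventually_ge_atTop 1] with n hn
  simp only [Function.comp, Pi.div_apply]
  rw [div_pow, div_div_div_cancel_right₀]
  positivity

/-- **The Turan density of the expansion of the shadow of a tight tree.**  Let `r ≥ 2` and let
`H` be an `r`-uniform tight tree, with `T = ∂ H`.  Then for all `n`
`|H| C(n - |H|, r - 1) ≤ ex_r(n, T⁺) ≤ |H| C(n, r - 1)`, and
`ex_r(n, T⁺) / C(n, r - 1)` tends to the number `|H|` of edges of `H`. -/
theorem result (r : ℕ) (hr : 2 ≤ r) (V : Type) [DecidableEq V] (H : Finset (Finset V))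
    (hH : IsTightTree r H) :
    (∀ n, H.card * (n - H.card).choose (r - 1) ≤ ex r n (expansion (shadow r H)) ∧
      ex r n (expansion (shadow r H)) ≤ H.card * n.choose (r - 1)) ∧
    Tendsto (fun n : ℕ => ((ex r n (expansion (shadow r H)) : ℕ) : ℝ) /
      ((n.choose (r - 1) : ℕ) : ℝ)) atTop (𝓝 (H.card : ℝ)) := by
  obtain ⟨k, e, hk, rfl, hcard, hstep⟩ := hH
  have hcardH := card_image_tree hstep
  rw [hcardH, shadow_eq]
  have hb : ∀ n, k * (n - k).choose (r - 1) ≤ ex r n (expansion (Sh r e k)) ∧
      ex r n (expansion (Sh r e k)) ≤ k * n.choose (r - 1) := fun n =>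
    ⟨lower hr hk hcard hstep n, ex_le (upper hr hk hcard hstep n)⟩
  refine ⟨hb, ?_⟩
  have h1 : Tendsto (fun n : ℕ => (k : ℝ) * ((((n - k).choose (r - 1) : ℕ) : ℝ) /
      ((n.choose (r - 1) : ℕ) : ℝ))) atTop (𝓝 (k : ℝ)) := by
    simpa using (ratio_tendsto k (r - 1)).const_mul (k : ℝ)
  refine tendsto_of_tendsto_of_tendsto_of_le_of_le' h1 tendsto_const_nhds ?_ ?_
  · filter_upwards [eventually_ge_atTop r] with n hn
    have hpos : (0 : ℝ) < ((n.choose (r - 1) : ℕ) : ℝ) := by
      exact_mod_cast Nat.choose_pos (by omega)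
    rw [← mul_div_assoc]
    apply div_le_div_of_nonneg_right _ hpos.le
    exact_mod_cast (hb n).1
  · filter_upwards [eventually_ge_atTop r] with n hn
    have hpos : (0 : ℝ) < ((n.choose (r - 1) : ℕ) : ℝ) := by
      exact_mod_cast Nat.choose_pos (by omega)
    rw [div_le_iff₀ hpos]
    exact_mod_cast (hb n).2

end Pool.Agent.Results.MP_182bbb_co.TightTreeShadowLimit
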